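import Pool.Agent.Q100.HS.Sep
import Pool.Agent.Y475.HS.Baire

/-!
# The set of maps of small energy is closed and convex; averages
-/

set_option autoImplicit false

open MeasureTheory Set Metric Filter Topology
open scoped ENNReal NNReal

noncomputable section

namespace Pool.Agent.Q100.HS

open Pool.Agent.Y485.HS Pool.Agent.Y475.HS

lemma r_le_one {N : ℕ} {r : ℝ} (hN : 0 < N) (hr : 0 < r) (h : N * r < 1) : r ≤ 1 := by
  have h1 : (1 : ℝ) ≤ N := by exact_mod_cast hN
  nlinarith

lemma ball_sub_BB {n : ℕ} {a : E n} {r : ℝ} (ha : a ∈ closedBall (0 : E n) 2) (hr : r ≤ 1) :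
    closedBall a r ⊆ BB n := fun _ hx =>
  closedBall_subset_closedBall (by norm_num) (closedBall_sub_three ha hr hx)

lemma bdd_img {n : ℕ} {u : E n → E n} (hu : ContinuousOn u (BB n)) {s : Set (E n)}
    (hs : s ⊆ BB n) : Bornology.IsBounded (u '' s) :=
  ((isCompact_closedBall (0 : E n) 4).image_of_continuousOn hu).isBounded.subset (image_mono hs)

lemma ext_cont {n : ℕ} (f : C(BB n, E n)) : ContinuousOn (ext f) (BB n) := by
  rw [continuousOn_iff_continuous_domRestrict]
  have : (BB n).domRestrict (ext f) = f := by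
    ext1 x
    exact ext_of_mem f x.2
  rw [this]
  exact f.continuous

lemma diam_lip {n : ℕ} {s : Set (E n)} (hs : s ⊆ BB n) :
    LipschitzWith 2 (fun f : C(BB n, E n) => Metric.diam (ext f '' s)) := by
  refine LipschitzWith.of_le_add_mul 2 fun f g => ?_
  have hd : 0 ≤ dist f g := dist_nonneg
  have h0 : 0 ≤ Metric.diam (ext g '' s) := Metric.diam_nonneg
  refine Metric.diam_le_of_forall_dist_le (by positivity) ?_
  rintro _ ⟨x, hx, rfl⟩ _ ⟨y, hy, rfl⟩
  have h1 : dist (ext f x) (ext g x) ≤ dist f g := by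
    rw [ext_of_mem f (hs hx), ext_of_mem g (hs hx)]
    exact ContinuousMap.dist_apply_le_dist _
  have h2 : dist (ext g y) (ext f y) ≤ dist f g := by
    rw [dist_comm, ext_of_mem f (hs hy), ext_of_mem g (hs hy)]
    exact ContinuousMap.dist_apply_le_dist _
  have h3 : dist (ext g x) (ext g y) ≤ Metric.diam (ext g '' s) :=
    Metric.dist_le_diam_of_mem (bdd_img (ext_cont g) hs) (mem_image_of_mem _ hx)
      (mem_image_of_mem _ hy)
  have h4 := dist_triangle4 (ext f x) (ext g x) (ext g y) (ext f y)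
  have h5 : ((2 : ℝ≥0) : ℝ) = 2 := by norm_num
  rw [h5]
  linarith

lemma closed_en {n : ℕ} (N : ℕ) (S : Set (E n)) :
    IsClosed {f : C(BB n, E n) | EnO N (ext f) S} := by
  by_cases hN : 0 < N
  · have h1 : {f : C(BB n, E n) | EnO N (ext f) S} =
        ⋂ (r : ℝ) (_ : 0 < r) (_ : N * r < 1) (A : Finset (E n))
          (_ : ∀ a ∈ A, a ∈ S ∧ a ∈ closedBall (0 : E n) 2)
          (_ : ∀ a ∈ A, ∀ b ∈ A, a ≠ b → r ≤ dist a b),
          {f : C(BB n, E n) | ∑ a ∈ A, Metric.diam (ext f '' closedBall a r) ^ n ≤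
            N * r ^ (1 / (N : ℝ) - 1)} := by
      ext f
      simp only [mem_iInter, mem_ofPred_eq, EnO, hN, true_and]
    rw [h1]
    refine isClosed_iInter fun r => isClosed_iInter fun hr => isClosed_iInter fun hNr =>
      isClosed_iInter fun A => isClosed_iInter fun hA => isClosed_iInter fun _ => ?_
    refine isClosed_le ?_ continuous_const
    exact continuous_finsetSum _ fun a ha =>
      ((diam_lip (ball_sub_BB (hA a ha).2 (r_le_one hN hr hNr))).continuous).pow n
  · have h1 : {f : C(BB n, E n) | EnO N (ext f) S} = ∅ := by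
      ext f
      simp only [mem_ofPred_eq, mem_empty_iff_false, iff_false]
      exact fun h => hN h.1
    rw [h1]
    exact isClosed_empty

lemma en_congr {n N : ℕ} {u v : E n → E n} {S : Set (E n)} (h : ∀ x ∈ BB n, u x = v x)
    (hu : EnO N u S) : EnO N v S := by
  refine ⟨hu.1, fun r hr hNr A hA hAs => ?_⟩
  have h1 : ∀ a ∈ A, v '' closedBall a r = u '' closedBall a r := fun a ha =>
    image_congr fun x hx => (h x (ball_sub_BB (hA a ha).2 (r_le_one hu.1 hr hNr) hx)).symm
  have h2 := hu.2 r hr hNr A hA hAs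
  calc ∑ a ∈ A, Metric.diam (v '' closedBall a r) ^ n
      = ∑ a ∈ A, Metric.diam (u '' closedBall a r) ^ n :=
        Finset.sum_congr rfl fun a ha => by rw [h1 a ha]
    _ ≤ _ := h2

lemma rpow_mono {N M : ℕ} {r : ℝ} (hN : 0 < N) (hNM : N ≤ M) (hr : 0 < r) (hr1 : r ≤ 1) :
    (N : ℝ) * r ^ (1 / (N : ℝ) - 1) ≤ M * r ^ (1 / (M : ℝ) - 1) := by
  have hN' : (0 : ℝ) < N := by exact_mod_cast hN
  have hM' : (N : ℝ) ≤ M := by exact_mod_cast hNM
  have h1 : (1 : ℝ) / M ≤ 1 / N := one_div_le_one_div_of_le hN' hM'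
  have h2 : r ^ (1 / (N : ℝ) - 1) ≤ r ^ (1 / (M : ℝ) - 1) :=
    Real.rpow_le_rpow_of_exponent_ge hr hr1 (by linarith)
  exact mul_le_mul hM' h2 (by positivity) (by positivity)

lemma en_mono {n N M : ℕ} {u : E n → E n} {S S' : Set (E n)} (hNM : N ≤ M) (hS : S' ⊆ S)
    (hu : EnO N u S) : EnO M u S' := by
  obtain ⟨hN, hu⟩ := hu
  refine ⟨hN.trans_le hNM, fun r hr hMr A hA hAs => ?_⟩
  have hM' : (N : ℝ) ≤ M := by exact_mod_cast hNM
  have hNr : N * r < 1 := lt_of_le_of_lt (by gcongr) hMr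
  exact (hu r hr hNr A (fun a ha => ⟨hS (hA a ha).1, (hA a ha).2⟩) hAs).trans
    (rpow_mono hN hNM hr (r_le_one hN hr hNr))

lemma diam_conv {n : ℕ} (f g : C(BB n, E n)) (a b : ℝ) (ha : 0 ≤ a) (hb : 0 ≤ b)
    {s : Set (E n)} (hs : s ⊆ BB n) :
    Metric.diam (ext (a • f + b • g) '' s) ≤
      a * Metric.diam (ext f '' s) + b * Metric.diam (ext g '' s) := by
  have h0 : 0 ≤ Metric.diam (ext g '' s) := Metric.diam_nonneg
  have h0' : 0 ≤ Metric.diam (ext f '' s) := Metric.diam_nonneg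
  refine Metric.diam_le_of_forall_dist_le (by positivity) ?_
  rintro _ ⟨x, hx, rfl⟩ _ ⟨y, hy, rfl⟩
  have hf : dist (ext f x) (ext f y) ≤ Metric.diam (ext f '' s) :=
    Metric.dist_le_diam_of_mem (bdd_img (ext_cont f) hs) (mem_image_of_mem _ hx)
      (mem_image_of_mem _ hy)
  have hg : dist (ext g x) (ext g y) ≤ Metric.diam (ext g '' s) :=
    Metric.dist_le_diam_of_mem (bdd_img (ext_cont g) hs) (mem_image_of_mem _ hx)
      (mem_image_of_mem _ hy)
  have hval : ∀ z (hz : z ∈ s), ext (a • f + b • g) z = a • ext f z + b • ext g z := by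
    intro z hz
    rw [ext_of_mem _ (hs hz), ext_of_mem _ (hs hz), ext_of_mem _ (hs hz)]
    rfl
  rw [hval x hx, hval y hy]
  refine (dist_add_add_le _ _ _ _).trans ?_
  rw [dist_smul₀, dist_smul₀, Real.norm_of_nonneg ha, Real.norm_of_nonneg hb]
  gcongr

lemma convex_en {n : ℕ} (N : ℕ) (S : Set (E n)) :
    Convex ℝ {f : C(BB n, E n) | EnO N (ext f) S} := by
  intro f hf g hg a b ha hb hab
  refine ⟨hf.1, fun r hr hNr A hA hAs => ?_⟩
  have h1 := hf.2 r hr hNr A hA hAs
  have h2 := hg.2 r hr hNr A hA hAs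
  calc ∑ c ∈ A, Metric.diam (ext (a • f + b • g) '' closedBall c r) ^ n
      ≤ ∑ c ∈ A, (a * Metric.diam (ext f '' closedBall c r) ^ n +
          b * Metric.diam (ext g '' closedBall c r) ^ n) := by
        refine Finset.sum_le_sum fun c hc => ?_
        have h3 : Metric.diam (ext (a • f + b • g) '' closedBall c r) ^ n ≤
            (a * Metric.diam (ext f '' closedBall c r) +
              b * Metric.diam (ext g '' closedBall c r)) ^ n :=
          pow_le_pow_left₀ Metric.diam_nonneg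
            (diam_conv f g a b ha hb (ball_sub_BB (hA c hc).2 (r_le_one hf.1 hr hNr))) n
        have h4 := (convexOn_pow (𝕜 := ℝ) n).2
          (show Metric.diam (ext f '' closedBall c r) ∈ Ici (0 : ℝ) from Metric.diam_nonneg)
          (show Metric.diam (ext g '' closedBall c r) ∈ Ici (0 : ℝ) from Metric.diam_nonneg)
          ha hb hab
        simp only [smul_eq_mul] at h4
        exact h3.trans h4
    _ = a * ∑ c ∈ A, Metric.diam (ext f '' closedBall c r) ^ n +
          b * ∑ c ∈ A, Metric.diam (ext g '' closedBall c r) ^ n := by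
        rw [Finset.sum_add_distrib, Finset.mul_sum, Finset.mul_sum]
    _ ≤ a * (N * r ^ (1 / (N : ℝ) - 1)) + b * (N * r ^ (1 / (N : ℝ) - 1)) := by
        gcongr
    _ = N * r ^ (1 / (N : ℝ) - 1) := by rw [← add_mul, hab, one_mul]

/-- averages of maps of small energy have small energy -/
theorem ave {n : ℕ} {Ω : Type} [TopologicalSpace Ω] [CompactSpace Ω] [MeasurableSpace Ω]
    [BorelSpace Ω] (μ : Measure Ω) [IsProbabilityMeasure μ] {T : Ω → E n → E n}
    (hT : ContinuousOn (fun q : Ω × E n => T q.1 q.2) (univ ×ˢ BB n)) {N : ℕ} {S : Set (E n)}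
    (hTN : ∀ ω, EnO N (T ω) S) : EnO N (fun x => ∫ ω, T ω x ∂μ) S := by
  let Φ : C(Ω, C(BB n, E n)) := res T hT
  have hint : Integrable (fun ω => Φ ω) μ :=
    Φ.continuous.integrable_of_hasCompactSupport (HasCompactSupport.of_compactSpace _)
  have hmem : ∫ ω, Φ ω ∂μ ∈ {f : C(BB n, E n) | EnO N (ext f) S} := by
    apply (convex_en N S).integral_mem (closed_en N S) _ hint
    refine Eventually.of_forall fun ω => ?_
    exact en_congr (fun x hx => by rw [ext_of_mem _ hx, res_apply]) (hTN ω)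
  have heval : ∀ x : BB n, ∫ ω, T ω x.1 ∂μ = (∫ ω, Φ ω ∂μ : C(BB n, E n)) x := by
    intro x
    have := (ContinuousMap.evalCLM ℝ x : C(BB n, E n) →L[ℝ] E n).integral_comp_comm hint
    exact this
  refine en_congr (fun x hx => ?_) hmem
  rw [ext_of_mem _ hx]
  exact (heval ⟨x, hx⟩).symm

/-- averages are continuous -/
theorem ave_cont {n : ℕ} {Ω : Type} [TopologicalSpace Ω] [CompactSpace Ω] [MeasurableSpace Ω]
    [BorelSpace Ω] (μ : Measure Ω) [IsProbabilityMeasure μ] {T : Ω → E n → E n}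
    (hT : ContinuousOn (fun q : Ω × E n => T q.1 q.2) (univ ×ˢ BB n)) :
    ContinuousOn (fun x => ∫ ω, T ω x ∂μ) (BB n) := by
  let Φ : C(Ω, C(BB n, E n)) := res T hT
  have hint : Integrable (fun ω => Φ ω) μ :=
    Φ.continuous.integrable_of_hasCompactSupport (HasCompactSupport.of_compactSpace _)
  have heval : ∀ x : BB n, ∫ ω, T ω x.1 ∂μ = (∫ ω, Φ ω ∂μ : C(BB n, E n)) x := by
    intro x
    have := (ContinuousMap.evalCLM ℝ x : C(BB n, E n) →L[ℝ] E n).integral_comp_comm hint
    exact this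
  rw [continuousOn_iff_continuous_domRestrict]
  have : (BB n).domRestrict (fun x => ∫ ω, T ω x ∂μ) = (∫ ω, Φ ω ∂μ : C(BB n, E n)) := by
    ext1 x
    exact heval x
  rw [this]
  exact (∫ ω, Φ ω ∂μ : C(BB n, E n)).continuous

end Pool.Agent.Q100.HS
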