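import Pool.Agent.Q100.HS.Clo
import Pool.Agent.Y485.HS.Loc

/-!
# Controlled points have small energy
-/

set_option autoImplicit false

open MeasureTheory Set Metric Filter Topology
open scoped ENNReal NNReal

noncomputable section

namespace Pool.Agent.Q100.HS

open Pool.Agent.Y485.HS

/-- the number of separated points in a ball -/
lemma card_sep {n : ℕ} {s R : ℝ} (hs : 0 < s) (hR : 0 ≤ R) (x : E n) (A : Finset (E n))
    (hA : ∀ a ∈ A, a ∈ closedBall x R) (hAs : ∀ a ∈ A, ∀ b ∈ A, a ≠ b → s ≤ dist a b) :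
    (A.card : ℝ) * s ^ n ≤ (2 * R + s) ^ n := by
  classical
  set κ := volume (ball (0 : E n) 1) with hκ
  have hκt : κ ≠ ∞ := measure_ball_lt_top.ne
  have hκ0 : κ ≠ 0 := (measure_ball_pos volume (0 : E n) one_pos).ne'
  have h1 : ∑ a ∈ A, volume (ball a (s / 2)) ≤ volume (ball x (R + s / 2)) := by
    rw [← measure_biUnion_finset]
    · refine measure_mono ?_
      intro z hz
      obtain ⟨a, ha, hza⟩ := mem_iUnion₂.1 hz
      have h2 := hA a ha
      rw [mem_closedBall] at h2
      rw [mem_ball] at hza ⊢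
      have := dist_triangle z a x
      linarith
    · intro a ha b hb hab
      refine ball_disjoint_ball ?_
      have := hAs a ha b hb hab
      linarith
    · intro a _
      exact measurableSet_ball
  have h2 : ∀ a : E n, volume (ball a (s / 2)) = ENNReal.ofReal ((s / 2) ^ n) * κ := by
    intro a
    rw [Measure.addHaar_ball_of_pos volume a (by positivity), finrank_euclideanSpace_fin]
  have h3 : volume (ball x (R + s / 2)) = ENNReal.ofReal ((R + s / 2) ^ n) * κ := by
    rw [Measure.addHaar_ball_of_pos volume x (by positivity), finrank_euclideanSpace_fin]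
  simp only [h2, Finset.sum_const, nsmul_eq_mul] at h1
  rw [h3, ← mul_assoc] at h1
  have h4 : (A.card : ℝ≥0∞) * ENNReal.ofReal ((s / 2) ^ n) ≤ ENNReal.ofReal ((R + s / 2) ^ n) :=
    (ENNReal.mul_le_mul_iff_left hκ0 hκt).1 h1
  have h5 : (A.card : ℝ) * (s / 2) ^ n ≤ (R + s / 2) ^ n := by
    rw [← ENNReal.ofReal_natCast, ← ENNReal.ofReal_mul (by positivity)] at h4
    exact (ENNReal.ofReal_le_ofReal_iff (by positivity)).1 h4
  calc (A.card : ℝ) * s ^ n = 2 ^ n * ((A.card : ℝ) * (s / 2) ^ n) := by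
        rw [div_pow]
        field_simp
    _ ≤ 2 ^ n * (R + s / 2) ^ n := by gcongr
    _ = (2 * R + s) ^ n := by rw [← mul_pow]; congr 1; ring

/-- the image of a ball contains the ball whose radius is the distance to the image of the
sphere -/
lemma img_ball {n : ℕ} {H : Type} [Group H] [TopologicalSpace H] {T : H → E n → E n}
    (hT : LocAct n H T) (h : H) {a : E n} (ha : a ∈ closedBall (0 : E n) 2) {r l : ℝ}
    (hr0 : 0 < r) (hr1 : r ≤ 1) (hl1 : l ≤ 3 / 2)
    (hl : ∀ z ∈ sphere a r, l ≤ dist (T h z) (T h a)) {q : E n} (hq : q ∈ ball (T h a) l) :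
    q ∈ BB n ∧ T h⁻¹ q ∈ closedBall a r := by
  have haB : a ∈ BB n := closedBall_subset_closedBall (by norm_num) ha
  have ha2 : ‖a‖ ≤ 2 := by simpa using ha
  have hTa := norm_T_le hT h haB
  have hTaB : T h a ∈ BB n := mem_BB.2 (by linarith)
  have hsub : ball (T h a) l ⊆ BB n := by
    intro w hw
    rw [mem_ball] at hw
    have h1 := dist_triangle w (T h a) 0
    rw [dist_zero_right, dist_zero_right] at h1
    exact mem_BB.2 (by linarith)
  have hl0 : 0 < l := lt_of_le_of_lt dist_nonneg (mem_ball.1 hq)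
  refine ⟨hsub hq, ?_⟩
  by_contra hcon
  rw [mem_closedBall, not_le] at hcon
  -- the segment
  let γ : ℝ → E n := fun t => T h a + t • (q - T h a)
  have hγd : ∀ t, 0 ≤ t → dist (γ t) (T h a) = t * dist q (T h a) := by
    intro t ht
    show dist (T h a + t • (q - T h a)) (T h a) = _
    rw [dist_eq_norm, add_sub_cancel_left, norm_smul, Real.norm_of_nonneg ht, dist_eq_norm]
  have hγb : ∀ t ∈ Icc (0 : ℝ) 1, γ t ∈ ball (T h a) l := by
    intro t ht
    rw [mem_ball, hγd t ht.1]
    have h1 : dist q (T h a) < l := hq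
    have h2 : 0 ≤ dist q (T h a) := dist_nonneg
    nlinarith [ht.1, ht.2]
  have hγc : ContinuousOn γ (Icc (0 : ℝ) 1) := by
    have : Continuous γ := by fun_prop
    exact this.continuousOn
  have hφ : ContinuousOn (fun t => dist (T h⁻¹ (γ t)) a) (Icc (0 : ℝ) 1) := by
    have h1 : ContinuousOn (fun t => T h⁻¹ (γ t)) (Icc (0 : ℝ) 1) :=
      (hT.cont_right h⁻¹).comp hγc (fun t ht => hsub (hγb t ht))
    exact continuous_dist.comp_continuousOn (h1.prodMk continuousOn_const)
  have h0 : dist (T h⁻¹ (γ 0)) a = 0 := by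
    have h1 : γ 0 = T h a := by simp [γ]
    rw [h1, hT.inv h haB hTaB, dist_self]
  have h1 : dist (T h⁻¹ (γ 1)) a = dist (T h⁻¹ q) a := by
    have h2 : γ 1 = q := by simp [γ]
    rw [h2]
  obtain ⟨t, ht, htr⟩ := intermediate_value_Icc (zero_le_one' ℝ) hφ
    (show r ∈ Icc (dist (T h⁻¹ (γ 0)) a) (dist (T h⁻¹ (γ 1)) a) by
      rw [h0, h1]; exact ⟨hr0.le, hcon.le⟩)
  have htr' : dist (T h⁻¹ (γ t)) a = r := htr
  have hzB : T h⁻¹ (γ t) ∈ BB n := by
    have h1 := dist_triangle (T h⁻¹ (γ t)) a 0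
    rw [dist_zero_right, dist_zero_right] at h1
    exact mem_BB.2 (by linarith)
  have h2 := hT.mul h h⁻¹ _ (hsub (hγb t ht)) hzB
  rw [mul_inv_cancel, hT.one _ (hsub (hγb t ht))] at h2
  have h3 := hl (T h⁻¹ (γ t)) (mem_sphere.2 htr')
  rw [← h2] at h3
  have h4 := hγb t ht
  rw [mem_ball] at h4
  linarith

/-- points on small spheres -/
lemma exists_sphere {n : ℕ} (hn : 1 ≤ n) (a : E n) {r : ℝ} (hr : 0 ≤ r) :
    (sphere a r).Nonempty := by
  have : Nontrivial (E n) := by
    have h0 : 0 < n := hn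
    have : Nonempty (Fin n) := ⟨⟨0, h0⟩⟩
    infer_instance
  exact NormedSpace.sphere_nonempty.2 hr

/-- controlled points have small energy -/
theorem en_of_ct {n : ℕ} (hn : 1 ≤ n) {H : Type} [Group H] [TopologicalSpace H]
    {T : H → E n → E n} (hT : LocAct n H T) (h : H) {N : ℕ} (hN : 0 < N) {S : Set (E n)}
    (hS : ∀ x ∈ S, x ∈ closedBall (0 : E n) 2 → CtE N (T h) x) :
    EnO (N * N + 2 ^ n * N * ((5 * N) ^ n + (4 * (2 * N + 1)) ^ n)) (T h) S := by
  classical
  set M : ℕ := N * N + 2 ^ n * N * ((5 * N) ^ n + (4 * (2 * N + 1)) ^ n) with hM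
  have hM0 : 0 < M := by positivity
  have hNM : N ≤ M := by
    have : N * 1 ≤ N * N := Nat.mul_le_mul_left N hN
    omega
  refine ⟨hM0, fun s hs hMs A hA hAs => ?_⟩
  have hN' : (0 : ℝ) < N := by exact_mod_cast hN
  have hN1 : (1 : ℝ) ≤ N := by exact_mod_cast hN
  have hs1 : s ≤ 1 := r_le_one hM0 hs hMs
  set r : ℝ := N * s with hr
  have hr0 : 0 < r := by positivity
  have hsr : s ≤ r := by rw [hr]; nlinarith
  have hNr : N * r < 1 := by
    have h1 : ((N * N : ℕ) : ℝ) ≤ (M : ℝ) := by
      have : N * N ≤ M := by omega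
      exact_mod_cast this
    have h2 : (N : ℝ) * r = ((N * N : ℕ) : ℝ) * s := by rw [hr]; push_cast; ring
    rw [h2]
    exact lt_of_le_of_lt (by gcongr) hMs
  have hr1 : r ≤ 1 := r_le_one hN hr0 hNr
  set u := T h with hu
  have haB : ∀ a ∈ A, a ∈ BB n := fun a ha =>
    closedBall_subset_closedBall (by norm_num) (hA a ha).2
  have hcB : ∀ a ∈ A, closedBall a r ⊆ BB n := fun a ha => ball_sub_BB (hA a ha).2 hr1
  have huc : ContinuousOn u (BB n) := hT.cont_right h
  -- the farthest point of the small ball and the closest point of the large sphere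
  have hmax : ∀ a ∈ A, ∃ y ∈ closedBall a s, ∀ y' ∈ closedBall a s,
      dist (u y') (u a) ≤ dist (u y) (u a) := by
    intro a ha
    have h1 : ContinuousOn (fun y => dist (u y) (u a)) (closedBall a s) :=
      continuous_dist.comp_continuousOn ((huc.mono ((closedBall_subset_closedBall hsr).trans
        (hcB a ha))).prodMk continuousOn_const)
    obtain ⟨y, hy, hy'⟩ := (isCompact_closedBall a s).exists_isMaxOn
      ⟨a, mem_closedBall_self hs.le⟩ h1
    exact ⟨y, hy, fun y' hy'' => hy' hy''⟩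
  have hmin : ∀ a ∈ A, ∃ z ∈ sphere a r, ∀ z' ∈ sphere a r,
      dist (u z) (u a) ≤ dist (u z') (u a) := by
    intro a ha
    have h1 : ContinuousOn (fun y => dist (u y) (u a)) (sphere a r) :=
      continuous_dist.comp_continuousOn ((huc.mono (sphere_subset_closedBall.trans
        (hcB a ha))).prodMk continuousOn_const)
    obtain ⟨y, hy, hy'⟩ := (isCompact_sphere a r).exists_isMinOn
      (exists_sphere hn a hr0.le) h1
    exact ⟨y, hy, fun y' hy'' => hy' hy''⟩
  choose! Y hY1 hY2 using hmax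
  choose! Z hZ1 hZ2 using hmin
  set l : E n → ℝ := fun a => dist (u (Z a)) (u a) with hl
  -- one ball
  have hball : ∀ a ∈ A, Metric.diam (u '' closedBall a s) ^ n ≤
      2 ^ n * (N * r ^ (1 / (N : ℝ) - 1) * (r ^ n + l a ^ n)) := by
    intro a ha
    have h1 : Metric.diam (u '' closedBall a s) ≤ 2 * dist (u (Y a)) (u a) := by
      refine Metric.diam_le_of_forall_dist_le (by positivity) ?_
      rintro _ ⟨x, hx, rfl⟩ _ ⟨x', hx', rfl⟩
      have h2 := dist_triangle_right (u x) (u x') (u a)
      have h3 := hY2 a ha x hx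
      have h4 := hY2 a ha x' hx'
      linarith
    have h2 : Metric.diam (u '' closedBall a s) ^ n ≤ (2 * dist (u (Y a)) (u a)) ^ n :=
      pow_le_pow_left₀ diam_nonneg h1 n
    have h3 : dist (Z a) a = r := hZ1 a ha
    have h4 := hS a (hA a ha).1 (hA a ha).2 (Y a) (hcB a ha
      (closedBall_subset_closedBall hsr (hY1 a ha))) (Z a)
      (hcB a ha (sphere_subset_closedBall (hZ1 a ha))) (by
        rw [h3, hr]
        have : dist (Y a) a ≤ s := hY1 a ha
        gcongr) (by rw [h3]; exact hNr)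
    rw [h3] at h4
    have h5 : dist (u (Y a)) (u a) ^ n ≤ N * r ^ (1 / (N : ℝ) - 1) * (r ^ n + l a ^ n) := by
      rw [Real.rpow_sub_one hr0.ne']
      have h6 : (N : ℝ) * (r ^ (1 / (N : ℝ)) / r) * (r ^ n + l a ^ n) =
          (N * r ^ (1 / (N : ℝ)) * (r ^ n + l a ^ n)) / r := by ring
      rw [h6, le_div_iff₀ hr0, mul_comm]
      exact h4
    calc Metric.diam (u '' closedBall a s) ^ n ≤ (2 * dist (u (Y a)) (u a)) ^ n := h2
      _ = 2 ^ n * dist (u (Y a)) (u a) ^ n := mul_pow _ _ _
      _ ≤ _ := by gcongr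
  -- the number of balls
  have hcard : (A.card : ℝ) * r ^ n ≤ (5 * N : ℝ) ^ n := by
    have h1 := card_sep hs (by norm_num : (0 : ℝ) ≤ 2) 0 A (fun a ha => (hA a ha).2) hAs
    calc (A.card : ℝ) * r ^ n = N ^ n * ((A.card : ℝ) * s ^ n) := by rw [hr, mul_pow]; ring
      _ ≤ N ^ n * (2 * 2 + s) ^ n := by gcongr
      _ ≤ N ^ n * 5 ^ n := by
          have h2 : (2 * 2 + s) ^ n ≤ 5 ^ n := pow_le_pow_left₀ (by positivity) (by linarith) n
          gcongr
      _ = (5 * N : ℝ) ^ n := by rw [mul_pow]; ring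
  -- the images
  have hvol : ∑ a ∈ A, l a ^ n ≤ (4 * (2 * N + 1) : ℝ) ^ n := by
    set κ := volume (ball (0 : E n) 1) with hκ
    have hκt : κ ≠ ∞ := measure_ball_lt_top.ne
    have hκ0 : κ ≠ 0 := (measure_ball_pos volume (0 : E n) one_pos).ne'
    have hl0 : ∀ a, 0 ≤ l a := fun a => dist_nonneg
    have hl32 : ∀ a ∈ A, l a ≤ 3 / 2 := by
      intro a ha
      have h1 := hT.disp h (Z a) (hcB a ha (sphere_subset_closedBall (hZ1 a ha)))
      have h2 := hT.disp h a (haB a ha)
      have h3 : dist (Z a) a = r := hZ1 a ha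
      have h4 := dist_triangle4 (u (Z a)) (Z a) a (u a)
      rw [dist_comm a (u a)] at h4
      show dist (u (Z a)) (u a) ≤ 3 / 2
      linarith
    have hsubB : ∀ a ∈ A, ball (u a) (l a) ⊆ BB n := fun a ha q hq =>
      (img_ball hT h (hA a ha).2 hr0 hr1 (hl32 a ha) (hZ2 a ha) hq).1
    have h1 : ∑ a ∈ A, volume (ball (u a) (l a)) ≤
        ((2 * N + 1 : ℕ) : ℝ≥0∞) ^ n * volume (BB n) := by
      have h2 : ∑ a ∈ A, volume (ball (u a) (l a)) =
          ∫⁻ q, ∑ a ∈ A, (ball (u a) (l a)).indicator (fun _ => (1 : ℝ≥0∞)) q := by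
        rw [lintegral_finsetSum _ fun a _ => measurable_const.indicator measurableSet_ball]
        refine Finset.sum_congr rfl fun a _ => ?_
        rw [lintegral_indicator measurableSet_ball, lintegral_const,
          Measure.restrict_apply MeasurableSet.univ, univ_inter, one_mul]
      rw [h2]
      calc ∫⁻ q, ∑ a ∈ A, (ball (u a) (l a)).indicator (fun _ => (1 : ℝ≥0∞)) q
          ≤ ∫⁻ q, (BB n).indicator (fun _ => ((2 * N + 1 : ℕ) : ℝ≥0∞) ^ n) q := by
            refine lintegral_mono fun q => ?_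
            have h3 : ∑ a ∈ A, (ball (u a) (l a)).indicator (fun _ => (1 : ℝ≥0∞)) q =
                ((A.filter (fun a => q ∈ ball (u a) (l a))).card : ℝ≥0∞) := by
              simp only [Set.indicator_apply]
              rw [← Finset.sum_filter, Finset.sum_const, nsmul_eq_mul, mul_one]
            rw [h3]
            rcases (A.filter (fun a => q ∈ ball (u a) (l a))).eq_empty_or_nonempty with h4 | h4
            · rw [h4]
              simp
            · obtain ⟨a0, ha0⟩ := h4
              rw [Finset.mem_filter] at ha0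
              have hqB := hsubB a0 ha0.1 ha0.2
              rw [Set.indicator_of_mem hqB]
              have h5 := card_sep hs hr0.le (T h⁻¹ q)
                (A.filter (fun a => q ∈ ball (u a) (l a))) (fun a ha => by
                  rw [Finset.mem_filter] at ha
                  have h6 := (img_ball hT h (hA a ha.1).2 hr0 hr1 (hl32 a ha.1)
                    (hZ2 a ha.1) ha.2).2
                  rw [mem_closedBall] at h6 ⊢
                  rw [dist_comm]
                  exact h6) (fun a ha b hb => hAs a (Finset.mem_filter.1 ha).1 b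
                    (Finset.mem_filter.1 hb).1)
              have h7 : (2 * r + s) ^ n = (2 * N + 1) ^ n * s ^ n := by
                rw [hr, ← mul_pow]
                congr 1
                ring
              rw [h7] at h5
              have h8 : ((A.filter (fun a => q ∈ ball (u a) (l a))).card : ℝ) ≤
                  (2 * N + 1) ^ n := le_of_mul_le_mul_right h5 (by positivity)
              have h9 : (A.filter (fun a => q ∈ ball (u a) (l a))).card ≤ (2 * N + 1) ^ n := by
                exact_mod_cast h8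
              rw [← Nat.cast_pow]
              exact Nat.cast_le.2 h9
        _ = ((2 * N + 1 : ℕ) : ℝ≥0∞) ^ n * volume (BB n) := by
            have hBm : MeasurableSet (BB n) := measurableSet_closedBall
            rw [lintegral_indicator hBm, lintegral_const,
              Measure.restrict_apply MeasurableSet.univ, univ_inter]
    have h2 : ∀ a : E n, volume (ball (u a) (l a)) = ENNReal.ofReal (l a ^ n) * κ := by
      intro a
      rcases (hl0 a).eq_or_lt with h3 | h3
      · rw [← h3, ball_zero, measure_empty, zero_pow (by omega)]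
        simp
      · rw [Measure.addHaar_ball_of_pos volume _ h3, finrank_euclideanSpace_fin]
    have h3 : volume (BB n) = ENNReal.ofReal (4 ^ n) * κ := by
      unfold BB
      rw [Measure.addHaar_closedBall volume _ (by norm_num), finrank_euclideanSpace_fin]
    simp only [h2] at h1
    rw [← Finset.sum_mul, h3, ← mul_assoc] at h1
    have h4 := (ENNReal.mul_le_mul_iff_left hκ0 hκt).1 h1
    have h5 : ((2 * N + 1 : ℕ) : ℝ≥0∞) ^ n * ENNReal.ofReal (4 ^ n) =
        ENNReal.ofReal ((4 * (2 * N + 1) : ℝ) ^ n) := by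
      rw [← ENNReal.ofReal_natCast, ← ENNReal.ofReal_pow (by positivity),
        ← ENNReal.ofReal_mul (by positivity), ← mul_pow]
      congr 2
      push_cast
      ring
    rw [h5, ← ENNReal.ofReal_sum_of_nonneg fun a _ => pow_nonneg (hl0 a) n] at h4
    exact (ENNReal.ofReal_le_ofReal_iff (by positivity)).1 h4
  -- the sum
  have hrs : r ^ (1 / (N : ℝ) - 1) ≤ s ^ (1 / (N : ℝ) - 1) := by
    refine Real.rpow_le_rpow_of_nonpos hs hsr ?_
    have : 1 / (N : ℝ) ≤ 1 := by
      rw [div_le_one hN']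
      exact hN1
    linarith
  have hsM : s ^ (1 / (N : ℝ) - 1) ≤ s ^ (1 / (M : ℝ) - 1) := by
    refine Real.rpow_le_rpow_of_exponent_ge hs hs1 ?_
    have : (1 : ℝ) / M ≤ 1 / N := one_div_le_one_div_of_le hN' (by exact_mod_cast hNM)
    linarith
  calc ∑ a ∈ A, Metric.diam (u '' closedBall a s) ^ n
      ≤ ∑ a ∈ A, 2 ^ n * (N * r ^ (1 / (N : ℝ) - 1) * (r ^ n + l a ^ n)) :=
        Finset.sum_le_sum hball
    _ = 2 ^ n * (N * r ^ (1 / (N : ℝ) - 1)) * ((A.card : ℝ) * r ^ n + ∑ a ∈ A, l a ^ n) := by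
        rw [← Finset.mul_sum, ← Finset.mul_sum, Finset.sum_add_distrib, Finset.sum_const,
          nsmul_eq_mul]
        ring
    _ ≤ 2 ^ n * (N * s ^ (1 / (M : ℝ) - 1)) * ((5 * N) ^ n + (4 * (2 * N + 1)) ^ n) := by
        have h1 : r ^ (1 / (N : ℝ) - 1) ≤ s ^ (1 / (M : ℝ) - 1) := hrs.trans hsM
        have h2 : 0 ≤ ∑ a ∈ A, l a ^ n := Finset.sum_nonneg fun a _ => pow_nonneg dist_nonneg n
        gcongr
    _ = ((2 ^ n * N * ((5 * N) ^ n + (4 * (2 * N + 1)) ^ n) : ℕ) : ℝ) *
          s ^ (1 / (M : ℝ) - 1) := by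
        push_cast
        ring
    _ ≤ M * s ^ (1 / (M : ℝ) - 1) := by
        gcongr
        omega

end Pool.Agent.Q100.HS
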