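import Pool.Agent.Q100.HS.Stm
import Pool.Agent.Y401.SPN.Fib

/-!
# Almost every fibre of a map with small energy is separated by hyperplanes
-/

set_option autoImplicit false

open MeasureTheory Set Metric Filter Topology
open scoped ENNReal NNReal

noncomputable section

namespace Pool.Agent.Q100.HS

open Pool.Agent.Y485.HS Pool.Agent.Y401.SPN

/-- a maximal separated subset of a subset of the ball -/
lemma netS (n : ℕ) {r : ℝ} (hr : 0 < r) (S : Set (E n)) (hS : S ⊆ closedBall (0 : E n) 3) :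
    ∃ A : Finset (E n),
    (∀ a ∈ A, a ∈ S) ∧ (∀ a ∈ A, ∀ b ∈ A, a ≠ b → r ≤ dist a b) ∧
    ∀ x ∈ S, ∃ a ∈ A, dist x a ≤ r := by
  classical
  have hc : IsCompact (closedBall (0 : E n) 3) := isCompact_closedBall 0 3
  obtain ⟨t, hts, htf, htc⟩ := hc.finite_cover_balls (half_pos hr)
  set P : Finset (E n) → Prop := fun A => (∀ a ∈ A, a ∈ S) ∧
    (∀ a ∈ A, ∀ b ∈ A, a ≠ b → r ≤ dist a b) with hP
  have hcard : ∀ A, P A → A.card ≤ htf.toFinset.card := by
    intro A hA
    have h1 : ∀ a ∈ A, ∃ c ∈ t, dist a c < r / 2 := by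
      intro a ha
      have h2 := htc (hS (hA.1 a ha))
      simpa only [mem_iUnion, mem_ball, exists_prop] using h2
    choose! c hc1 hc2 using h1
    refine Finset.card_le_card_of_injOn c (fun a ha => htf.mem_toFinset.2 (hc1 a ha)) ?_
    intro a ha b hb hab
    by_contra hne
    have h3 := hA.2 a ha b hb hne
    have h4 := hc2 a ha
    have h5 := hc2 b hb
    have hab' : c a = c b := hab
    rw [← hab'] at h5
    have h6 := dist_triangle_right a b (c a)
    linarith
  set Q : Set ℕ := {k | ∃ A, P A ∧ A.card = k} with hQ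
  have hne : Q.Nonempty := ⟨0, ∅, ⟨by simp, by simp⟩, by simp⟩
  have hbd : BddAbove Q := ⟨htf.toFinset.card, by
    rintro k ⟨A, hA, rfl⟩
    exact hcard A hA⟩
  obtain ⟨A, hA, hAc⟩ := Nat.sSup_mem hne hbd
  refine ⟨A, hA.1, hA.2, fun x hx => ?_⟩
  by_contra hno
  push Not at hno
  have hxA : x ∉ A := by
    intro h
    have := hno x h
    rw [dist_self] at this
    linarith
  have hins : P (insert x A) := by
    refine ⟨fun a ha => ?_, fun a ha b hb hab => ?_⟩
    · rcases Finset.mem_insert.1 ha with rfl | ha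
      · exact hx
      · exact hA.1 a ha
    · rcases Finset.mem_insert.1 ha with h8 | h8 <;> rcases Finset.mem_insert.1 hb with h9 | h9
      · exact absurd (h8.trans h9.symm) hab
      · rw [h8]; exact (hno b h9).le
      · rw [h9, dist_comm]; exact (hno a h8).le
      · exact hA.2 a h8 b h9 hab
  have h7 : (insert x A).card ≤ sSup Q := le_csSup hbd ⟨_, hins, rfl⟩
  rw [Finset.card_insert_of_notMem hxA, hAc] at h7
  omega

lemma closedBall_sub_three {n : ℕ} {a : E n} {r : ℝ} (ha : a ∈ closedBall (0 : E n) 2)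
    (hr : r ≤ 1) : closedBall a r ⊆ closedBall (0 : E n) 3 := by
  intro x hx
  rw [mem_closedBall] at hx ha ⊢
  have := dist_triangle x a 0
  linarith

/-- almost every slice of a set of small energy has a null image -/
lemma slice {n : ℕ} {F : E n → E n} {N : ℕ} {S : Set (E n)} (hF : ContinuousOn F (BB n))
    (hE : EnO N F S) (i : Fin n) :
    ∀ᵐ t : ℝ, volume (F '' {x | (x ∈ S ∧ x ∈ closedBall (0 : E n) 2) ∧ x i = t}) = 0 := by
  classical
  obtain ⟨hN, hE⟩ := hE
  have hN' : (0 : ℝ) < N := by exact_mod_cast hN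
  have hS3 : {x | x ∈ S ∧ x ∈ closedBall (0 : E n) 2} ⊆ closedBall (0 : E n) 3 := fun x hx =>
    closedBall_subset_closedBall (by norm_num) hx.2
  choose A hA1 hA2 hA3 using fun j : ℕ => netS n (r := (1 / 2 : ℝ) ^ (j + N)) (by positivity)
    {x | x ∈ S ∧ x ∈ closedBall (0 : E n) 2} hS3
  have hsmall : ∀ j : ℕ, (N : ℝ) * (1 / 2 : ℝ) ^ (j + N) < 1 := by
    intro j
    have h1 : (N : ℝ) < 2 ^ N := by exact_mod_cast Nat.lt_two_pow_self
    have h2 : (1 / 2 : ℝ) ^ (j + N) ≤ (1 / 2 : ℝ) ^ N :=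
      pow_le_pow_of_le_one (by norm_num) (by norm_num) (by omega)
    have h3 : (1 / 2 : ℝ) ^ N = 1 / 2 ^ N := by rw [div_pow, one_pow]
    calc (N : ℝ) * (1 / 2 : ℝ) ^ (j + N) ≤ N * (1 / 2 ^ N) := by rw [← h3]; gcongr
      _ < 2 ^ N * (1 / 2 ^ N) := by gcongr
      _ = 1 := by field_simp
  set D : ℕ → E n → ℝ := fun j a =>
    Metric.diam (F '' closedBall a ((1 / 2 : ℝ) ^ (j + N))) ^ n with hD
  have hD0 : ∀ j a, 0 ≤ D j a := fun j a => pow_nonneg diam_nonneg _
  set f : ℕ → ℝ → ℝ≥0∞ := fun j t => ∑ a ∈ A j,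
    (Icc (a i - (1 / 2 : ℝ) ^ (j + N)) (a i + (1 / 2 : ℝ) ^ (j + N))).indicator
      (fun _ => ENNReal.ofReal (D j a)) t with hf
  have hfm : ∀ j, Measurable (f j) := by
    intro j
    refine Finset.measurable_fun_sum _ fun a _ => ?_
    exact measurable_const.indicator measurableSet_Icc
  set ρ : ℝ := (1 / 2 : ℝ) ^ (1 / (N : ℝ)) with hρ
  have hρ0 : 0 ≤ ρ := by positivity
  have hρ1 : ρ < 1 := Real.rpow_lt_one (by norm_num) (by norm_num) (by positivity)
  have hint : ∀ j, ∫⁻ t, f j t ≤ ENNReal.ofReal (2 * N * ρ ^ (j + N)) := by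
    intro j
    set r : ℝ := (1 / 2 : ℝ) ^ (j + N) with hr
    have hr0 : 0 < r := by positivity
    have h1 : ∫⁻ t, f j t = ∑ a ∈ A j, ENNReal.ofReal (D j a) * ENNReal.ofReal (2 * r) := by
      simp only [hf]
      rw [lintegral_finsetSum _ fun a _ => measurable_const.indicator measurableSet_Icc]
      refine Finset.sum_congr rfl fun a _ => ?_
      rw [lintegral_indicator measurableSet_Icc, lintegral_const,
        Measure.restrict_apply MeasurableSet.univ, univ_inter, Real.volume_Icc]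
      congr 2
      ring
    have h2 : ∑ a ∈ A j, ENNReal.ofReal (D j a) * ENNReal.ofReal (2 * r)
        = ENNReal.ofReal ((∑ a ∈ A j, D j a) * (2 * r)) := by
      rw [ENNReal.ofReal_mul (Finset.sum_nonneg fun a _ => hD0 j a),
        ENNReal.ofReal_sum_of_nonneg fun a _ => hD0 j a, Finset.sum_mul]
    rw [h1, h2]
    apply ENNReal.ofReal_le_ofReal
    have h3 := hE r hr0 (hsmall j) (A j) (hA1 j) (hA2 j)
    have h4 : r ^ (1 / (N : ℝ) - 1) * r = ρ ^ (j + N) := by
      rw [Real.rpow_sub_one hr0.ne', div_mul_cancel₀ _ hr0.ne', hρ,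
        Real.rpow_pow_comm (by norm_num)]
    calc (∑ a ∈ A j, D j a) * (2 * r) ≤ (N * r ^ (1 / (N : ℝ) - 1)) * (2 * r) := by gcongr
      _ = 2 * N * (r ^ (1 / (N : ℝ) - 1) * r) := by ring
      _ = 2 * N * ρ ^ (j + N) := by rw [h4]
  have hsum : ∫⁻ t, ∑' j, f j t ≠ ∞ := by
    rw [lintegral_tsum fun j => (hfm j).aemeasurable]
    refine ne_top_of_le_ne_top ?_ (ENNReal.tsum_le_tsum hint)
    have hs : Summable fun j : ℕ => 2 * N * ρ ^ (j + N) :=
      ((summable_geometric_of_lt_one hρ0 hρ1).comp_injective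
        (add_left_injective N)).mul_left _
    exact hs.tsum_ofReal_ne_top
  have hae := ae_lt_top (Measurable.tsum hfm) hsum
  filter_upwards [hae] with t ht
  set κ := volume (ball (0 : E n) 1) with hκ
  have hκt : κ ≠ ∞ := measure_ball_lt_top.ne
  have hz : Tendsto (fun j => f j t) atTop (𝓝 0) :=
    ENNReal.tendsto_atTop_zero_of_tsum_ne_top ht.ne
  have hz2 : Tendsto (fun j => f j t * κ) atTop (𝓝 0) := by
    have := ENNReal.Tendsto.mul_const hz (b := κ) (Or.inr hκt)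
    simpa using this
  refine le_antisymm (ge_of_tendsto' hz2 fun j => ?_) (zero_le)
  set r : ℝ := (1 / 2 : ℝ) ^ (j + N) with hr
  have hr1 : r ≤ 1 := pow_le_one₀ (by norm_num) (by norm_num)
  have hsub : F '' {x | (x ∈ S ∧ x ∈ closedBall (0 : E n) 2) ∧ x i = t} ⊆
      ⋃ a ∈ (A j).filter (fun a => t ∈ Icc (a i - r) (a i + r)),
        F '' closedBall a r := by
    rintro y ⟨x, ⟨hx, hxt⟩, rfl⟩
    obtain ⟨a, haA, hxa⟩ := hA3 j x hx
    have h1 := coord x a i
    rw [hxt, abs_le] at h1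
    refine mem_biUnion (x := a) ?_ ⟨x, mem_closedBall.2 hxa, rfl⟩
    rw [Finset.mem_coe, Finset.mem_filter]
    exact ⟨haA, by linarith [h1.1], by linarith [h1.2]⟩
  refine (measure_mono hsub).trans ((measure_biUnion_finset_le _ _).trans ?_)
  have hb : ∀ a ∈ A j, Bornology.IsBounded (F '' closedBall a r) := by
    intro a ha
    have hcomp : IsCompact (F '' closedBall (0 : E n) 3) :=
      (isCompact_closedBall 0 3).image_of_continuousOn
        (hF.mono (closedBall_subset_closedBall (by norm_num)))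
    exact hcomp.isBounded.subset (image_mono (closedBall_sub_three (hA1 j a ha).2 hr1))
  calc ∑ a ∈ (A j).filter (fun a => t ∈ Icc (a i - r) (a i + r)),
        volume (F '' closedBall a r)
      ≤ ∑ a ∈ (A j).filter (fun a => t ∈ Icc (a i - r) (a i + r)), ENNReal.ofReal (D j a) * κ :=
        Finset.sum_le_sum fun a ha => vol_le _ (hb a (Finset.mem_filter.1 ha).1)
    _ = f j t * κ := by
        rw [← Finset.sum_mul, Finset.sum_filter]
        simp only [hf, Set.indicator_apply, ← hr]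

/-- almost every fibre is separated by hyperplanes -/
theorem sep_ae {n : ℕ} {F : E n → E n} {B : Set (E n)} {ι : Type} [Countable ι]
    {S : ι → Set (E n)} (hF : ContinuousOn F (BB n)) (hB : B ⊆ closedBall (0 : E n) 2)
    (hBS : B ⊆ ⋃ i, S i) (hE : ∀ i, ∃ N : ℕ, EnO N F (S i)) :
    ∀ᵐ w : E n, ∀ x ∈ B, ∀ x' ∈ B, F x = w → F x' = w → x ≠ x' →
      ∃ (i : Fin n) (t : ℝ), (∀ z ∈ B, F z = w → z i ≠ t) ∧
        ((x i < t ∧ t < x' i) ∨ (x' i < t ∧ t < x i)) := by
  classical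
  choose N hN using hE
  have h1 : ∀ i : Fin n, ∃ T : Set ℝ, T.Countable ∧ Dense T ∧ ∀ t ∈ T,
      volume (F '' {x | x ∈ B ∧ x i = t}) = 0 := by
    intro i
    have hall : ∀ᵐ t : ℝ, ∀ j : ι,
        volume (F '' {x | (x ∈ S j ∧ x ∈ closedBall (0 : E n) 2) ∧ x i = t}) = 0 :=
      ae_all_iff.2 fun j => slice hF (hN j) i
    have hd := Measure.dense_of_ae hall
    obtain ⟨T, hT1, hT2, hT3⟩ := hd.exists_countable_dense_subset
    refine ⟨T, hT2, hT3, fun t ht => ?_⟩
    have h2 := hT1 ht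
    refine measure_mono_null (t := ⋃ j : ι,
      F '' {x | (x ∈ S j ∧ x ∈ closedBall (0 : E n) 2) ∧ x i = t}) ?_
      (measure_iUnion_null fun j => h2 j)
    rintro y ⟨x, ⟨hxB, hxt⟩, rfl⟩
    obtain ⟨j, hj⟩ := mem_iUnion.1 (hBS hxB)
    exact mem_iUnion.2 ⟨j, x, ⟨⟨hj, hB hxB⟩, hxt⟩, rfl⟩
  choose T hT1 hT2 hT3 using h1
  have h2 : ∀ᵐ y : E n, ∀ i : Fin n, ∀ t ∈ T i, y ∉ F '' {x | x ∈ B ∧ x i = t} := by
    rw [ae_all_iff]
    intro i
    rw [ae_ball_iff (hT1 i)]
    intro t ht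
    exact measure_eq_zero_iff_ae_notMem.1 (hT3 i t ht)
  filter_upwards [h2] with y hy x hx x' hx' hFx hFx' hne
  obtain ⟨i, hi⟩ : ∃ i : Fin n, x i ≠ x' i := by
    by_contra hall
    push Not at hall
    exact hne (PiLp.ext hall)
  rcases lt_or_gt_of_ne hi with h3 | h3
  · obtain ⟨t, htT, ht1, ht2⟩ := (hT2 i).exists_between h3
    exact ⟨i, t, fun z hz hFz hzt => hy i t htT ⟨z, ⟨hz, hzt⟩, hFz⟩, Or.inl ⟨ht1, ht2⟩⟩
  · obtain ⟨t, htT, ht1, ht2⟩ := (hT2 i).exists_between h3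
    exact ⟨i, t, fun z hz hFz hzt => hy i t htT ⟨z, ⟨hz, hzt⟩, hFz⟩, Or.inr ⟨ht1, ht2⟩⟩

end Pool.Agent.Q100.HS
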