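import Pool.Agent.Y485.HS.Stm

/-!
# The Hilbert-Smith conjecture for homeomorphisms of sigma-finite small energy: definitions

The set-up (`E n`, `BB n`, `LocAct`, `ProP`, `BiLip`, `Reg`) is that of project HS of helper485.
-/

set_option autoImplicit false

open MeasureTheory Set Metric Filter Topology
open scoped ENNReal NNReal

noncomputable section

namespace Pool.Agent.Q100.HS

open Pool.Agent.Y485.HS

/-! ### maps of the ball -/

/-- the discrete energy of the map `u` along the set `S` -/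
def EnO {n : ℕ} (N : ℕ) (u : E n → E n) (S : Set (E n)) : Prop :=
  0 < N ∧ ∀ r : ℝ, 0 < r → N * r < 1 → ∀ A : Finset (E n),
    (∀ a ∈ A, a ∈ S ∧ a ∈ closedBall (0 : E n) 2) →
    (∀ a ∈ A, ∀ b ∈ A, a ≠ b → r ≤ dist a b) →
    ∑ a ∈ A, Metric.diam (u '' closedBall a r) ^ n ≤ N * r ^ (1 / (N : ℝ) - 1)

/-- countably many closed sets of small energy -/
def SEn {n : ℕ} (u : E n → E n) : Prop :=
  ∃ S : ℕ → Set (E n), (∀ i, IsClosed (S i)) ∧ closedBall (0 : E n) 2 ⊆ ⋃ i, S i ∧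
    ∀ i, ∃ N : ℕ, EnO N u (S i)

/-- the map `u` is controlled at the point `x` -/
def CtE {n : ℕ} (N : ℕ) (u : E n → E n) (x : E n) : Prop :=
  ∀ y ∈ BB n, ∀ z ∈ BB n, N * dist y x ≤ dist z x → N * dist z x < 1 →
    dist z x * dist (u y) (u x) ^ n ≤
      N * dist z x ^ (1 / (N : ℝ)) * (dist z x ^ n + dist (u z) (u x) ^ n)

/-- an open subgroup acts trivially near `x` -/
def Triv {n : ℕ} {H : Type} [Group H] [TopologicalSpace H] (T : H → E n → E n) (x : E n) :
    Prop :=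
  ∃ K : Subgroup H, IsOpen (K : Set H) ∧ ∀ᶠ z in 𝓝 x, ∀ k ∈ K, T k z = z

/-- the fibre of `F` over `w` in the ball of radius three is separated by hyperplanes -/
def SepF {n : ℕ} (F : E n → E n) (w : E n) : Prop :=
  ∀ x ∈ closedBall (0 : E n) 3, ∀ x' ∈ closedBall (0 : E n) 3, F x = w → F x' = w → x ≠ x' →
    ∃ (i : Fin n) (t : ℝ), (∀ z ∈ closedBall (0 : E n) 3, F z = w → z i ≠ t) ∧
      ((x i < t ∧ t < x' i) ∨ (x' i < t ∧ t < x i))

/-! ### maps of a metric space -/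

/-- The map `f` is controlled at the point `x` with the constant `N`. -/
def Ctl (n N : ℕ) {X : Type} [MetricSpace X] (f : X → X) (x : X) : Prop :=
  ∀ y z : X, N * dist y x ≤ dist z x → N * dist z x < 1 →
    dist z x * dist (f y) (f x) ^ n ≤
      N * dist z x ^ (1 / (N : ℝ)) * (dist z x ^ n + dist (f z) (f x) ^ n)

/-- The map `f` has small energy along the set `S`. -/
def Ene (n : ℕ) {X : Type} [MetricSpace X] (f : X → X) (S : Set X) : Prop :=
  ∀ C ⊆ Reg n X, IsCompact C → ∀ c : ℕ, ∃ N : ℕ, 0 < N ∧ ∀ r : ℝ, 0 < r → N * r < 1 →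
    ∀ A : Finset X, (∀ a ∈ A, a ∈ S ∧ a ∈ C) → (∀ a ∈ A, ∀ b ∈ A, a ≠ b → r ≤ dist a b) →
      ∑ a ∈ A, Metric.diam (f '' (closedBall a (c * r) ∩ C)) ^ n ≤ N * r ^ (1 / (N : ℝ) - 1)

/-- The class of the main theorem: the regular part is covered by countably many closed sets, along
each of which the map is uniformly controlled or has small energy. -/
def Cls (n : ℕ) {X : Type} [MetricSpace X] (f : X → X) : Prop :=
  ∃ S : ℕ → Set X, (∀ i, IsClosed (S i)) ∧ Reg n X ⊆ ⋃ i, S i ∧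
    ∀ i, (∃ N : ℕ, 0 < N ∧ ∀ x ∈ S i, Ctl n N f x) ∨ Ene n f (S i)

end Pool.Agent.Q100.HS
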